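import Mathlib

/-!
# An operator with spectral synthesis which is not reflexive: the abstract part
-/

set_option autoImplicit false
open scoped InnerProductSpace
open Filter Topology

namespace Pool.Agent.J4H87.ES

/-- A sequence whose weighted power sums vanish is zero. -/
lemma vanish (d : ℕ → ℂ) (l : ℕ → ℝ) (hl : ∀ n, 0 < l n) (hanti : StrictAnti l)
    (hs : Summable (fun n => l n * ‖d n‖))
    (h : ∀ k : ℕ, HasSum (fun n => (((l n) ^ (k + 1) : ℝ) : ℂ) * d n) 0) : ∀ n, d n = 0 := by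
  intro n
  induction n using Nat.strong_induction_on with
  | _ n ih =>
    set T := ∑' m, l m * ‖d m‖ with hT
    have key : ∀ k : ℕ, l n ^ (k + 1) * ‖d n‖ ≤ l (n + 1) ^ k * T := by
      intro k
      have h1 := (h k).update n 0
      have h2 : HasSum (fun m => l (n + 1) ^ k * (l m * ‖d m‖)) (l (n + 1) ^ k * T) :=
        hs.hasSum.mul_left _
      have h3 := h1.norm_le_of_bounded h2 (fun m => by
        by_cases hm : m = n
        · subst hm
          simp only [Function.update_self, norm_zero]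
          have := hl m; have := hl (m + 1); positivity
        · rw [Function.update_of_ne hm]
          rcases lt_or_gt_of_ne hm with hlt | hgt
          · rw [ih m hlt]; simp
          · rw [norm_mul, Complex.norm_real, Real.norm_eq_abs, abs_of_pos (pow_pos (hl m) _),
              pow_succ, mul_assoc]
            have h4 : l m ≤ l (n + 1) := hanti.antitone hgt
            have h5 := hl m
            gcongr)
      rw [zero_sub, add_zero, norm_neg, norm_mul, Complex.norm_real, Real.norm_eq_abs,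
        abs_of_pos (pow_pos (hl n) _)] at h3
      exact h3
    have hln := hl n
    have hln1 := hl (n + 1)
    have hlt : l (n + 1) / l n < 1 := (div_lt_one hln).2 (hanti (Nat.lt_succ_self n))
    have h0 : Tendsto (fun k : ℕ => (l (n + 1) / l n) ^ k * (T / l n)) atTop (𝓝 (0 * (T / l n))) :=
      (tendsto_pow_atTop_nhds_zero_of_lt_one (by positivity) hlt).mul_const _
    rw [zero_mul] at h0
    have h6 : ‖d n‖ ≤ 0 := by
      refine ge_of_tendsto' h0 (fun k => ?_)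
      have h7 := key k
      rw [div_pow, div_mul_div_comm, le_div_iff₀ (by positivity), ← pow_succ]
      linarith
    exact norm_le_zero_iff.1 h6

section
variable {H : Type} [NormedAddCommGroup H] [InnerProductSpace ℂ H] [CompleteSpace H]

/-- the rank one operator `z ↦ ⟪y, z⟫ x` -/
noncomputable def rk (x y : H) : H →L[ℂ] H := (innerSL ℂ y).smulRight x

@[simp] lemma rk_apply (x y z : H) : rk x y z = ⟪y, z⟫_ℂ • x := rfl

lemma norm_rk_le (x y : H) : ‖rk x y‖ ≤ ‖y‖ * ‖x‖ := by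
  refine ContinuousLinearMap.opNorm_le_bound _ (by positivity) (fun z => ?_)
  rw [rk_apply, norm_smul]
  have := norm_inner_le_norm (𝕜 := ℂ) y z
  nlinarith [norm_nonneg x, norm_nonneg z]

/-- The data: a unit vector `e`, a biorthogonal system `X, Y` orthogonal to `e`, which is
hereditarily complete in the complement of `e`, and weights `l`. -/
structure Data (H : Type) [NormedAddCommGroup H] [InnerProductSpace ℂ H] [CompleteSpace H] where
  e : H
  X : ℕ → H
  Y : ℕ → H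
  l : ℕ → ℝ
  he : ⟪e, e⟫_ℂ = 1
  heX : ∀ n, ⟪e, X n⟫_ℂ = 0
  heY : ∀ n, ⟪Y n, e⟫_ℂ = 0
  bi : ∀ m n, ⟪Y m, X n⟫_ℂ = if m = n then 1 else 0
  her : ∀ z w : H, (∀ n, ⟪Y n, z⟫_ℂ = 0 ∨ ⟪w, X n⟫_ℂ = 0) → ⟪w, z - ⟪e, z⟫_ℂ • e⟫_ℂ = 0
  lpos : ∀ n, 0 < l n
  lanti : StrictAnti l
  lsum : Summable (fun n => l n * (‖Y n‖ * ‖X n‖))

namespace Data
variable (D : Data H)

lemma summable_op : Summable (fun n => ((D.l n : ℝ) : ℂ) • rk (D.X n) (D.Y n)) := by
  refine Summable.of_norm_bounded D.lsum (fun n => ?_)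
  rw [norm_smul, Complex.norm_real, Real.norm_eq_abs, abs_of_pos (D.lpos n)]
  exact mul_le_mul_of_nonneg_left (norm_rk_le _ _) (D.lpos n).le

/-- the operator `A = ∑ l_n ⟪Y_n, ·⟫ X_n` -/
noncomputable def A : H →L[ℂ] H := ∑' n, ((D.l n : ℝ) : ℂ) • rk (D.X n) (D.Y n)

lemma hasSum_A (z : H) :
    HasSum (fun n => ((D.l n : ℝ) : ℂ) • (⟪D.Y n, z⟫_ℂ • D.X n)) (D.A z) := by
  have h := D.summable_op.hasSum
  have h2 := h.mapL (ContinuousLinearMap.apply ℂ H z)
  simpa [A] using h2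

lemma inner_Y_A (n : ℕ) (z : H) : ⟪D.Y n, D.A z⟫_ℂ = ((D.l n : ℝ) : ℂ) * ⟪D.Y n, z⟫_ℂ := by
  have h := (D.hasSum_A z).mapL (innerSL ℂ (D.Y n))
  have h2 : HasSum (fun m => innerSL ℂ (D.Y n) (((D.l m : ℝ) : ℂ) • (⟪D.Y m, z⟫_ℂ • D.X m)))
      (((D.l n : ℝ) : ℂ) * ⟪D.Y n, z⟫_ℂ) := by
    have h3 := hasSum_ite_eq n (((D.l n : ℝ) : ℂ) * ⟪D.Y n, z⟫_ℂ)
    convert h3 using 2 with m
    simp only [innerSL_apply_apply, inner_smul_right, D.bi]
    by_cases hm : m = n
    · subst hm; simp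
    · rw [if_neg (fun h => hm h.symm), if_neg hm]; simp
  have h4 := h.unique h2
  simpa using h4

lemma inner_Y_pow (n : ℕ) (z : H) (k : ℕ) :
    ⟪D.Y n, (D.A ^ k) z⟫_ℂ = (((D.l n) ^ k : ℝ) : ℂ) * ⟪D.Y n, z⟫_ℂ := by
  induction k with
  | zero => simp
  | succ k ih =>
    rw [pow_succ', mul_apply_eq_comp, inner_Y_A, ih]
    push_cast
    ring

lemma A_X (n : ℕ) : D.A (D.X n) = ((D.l n : ℝ) : ℂ) • D.X n := by
  have h := D.hasSum_A (D.X n)
  have h2 : HasSum (fun m => ((D.l m : ℝ) : ℂ) • (⟪D.Y m, D.X n⟫_ℂ • D.X m))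
      (((D.l n : ℝ) : ℂ) • D.X n) := by
    have h3 := hasSum_ite_eq n (((D.l n : ℝ) : ℂ) • D.X n)
    convert h3 using 2 with m
    by_cases hm : m = n
    · subst hm; simp [D.bi]
    · simp [D.bi, hm]
  exact h.unique h2

lemma A_e : D.A D.e = 0 := by
  have h := D.hasSum_A D.e
  have h2 : HasSum (fun m => ((D.l m : ℝ) : ℂ) • (⟪D.Y m, D.e⟫_ℂ • D.X m)) 0 := by
    simp [D.heY, hasSum_zero]
  exact h.unique h2

/-- Closed invariant subspaces of `A` are invariant under the rank one idempotents. -/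
lemma inv_rk (M : Submodule ℂ H) (hM : IsClosed (M : Set H)) (hA : ∀ x ∈ M, D.A x ∈ M)
    (z : H) (hz : z ∈ M) (n : ℕ) : ⟪D.Y n, z⟫_ℂ • D.X n ∈ M := by
  have : CompleteSpace M := hM.completeSpace_coe
  have hpow : ∀ k : ℕ, (D.A ^ k) z ∈ M := by
    intro k
    induction k with
    | zero => simpa using hz
    | succ k ih => rw [pow_succ', mul_apply_eq_comp]; exact hA _ ih
  rw [← M.orthogonal_orthogonal, Submodule.mem_orthogonal]
  intro w hw
  have hw' : ∀ u ∈ M, ⟪w, u⟫_ℂ = 0 := fun u hu => Submodule.inner_left_of_mem_orthogonal hu hw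
  refine vanish (fun n => ⟪w, ⟪D.Y n, z⟫_ℂ • D.X n⟫_ℂ) D.l D.lpos D.lanti ?_ ?_ n
  · refine Summable.of_nonneg_of_le (fun m => mul_nonneg (D.lpos m).le (norm_nonneg _))
      (fun m => ?_) (D.lsum.mul_left (‖w‖ * ‖z‖))
    have h1 : ‖⟪w, ⟪D.Y m, z⟫_ℂ • D.X m⟫_ℂ‖ ≤ ‖w‖ * ((‖D.Y m‖ * ‖z‖) * ‖D.X m‖) := by
      refine (norm_inner_le_norm _ _).trans ?_
      rw [norm_smul]
      gcongr
      exact norm_inner_le_norm _ _
    have h2 := mul_le_mul_of_nonneg_left h1 (D.lpos m).le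
    refine h2.trans (le_of_eq (by ring))
  · intro k
    have h := (D.hasSum_A ((D.A ^ k) z)).mapL (innerSL ℂ w)
    have h3 : innerSL ℂ w (D.A ((D.A ^ k) z)) = 0 := by
      rw [innerSL_apply_apply]
      refine hw' _ ?_
      have := hpow (k + 1)
      rwa [pow_succ', mul_apply_eq_comp] at this
    rw [h3] at h
    have h4 : (fun n => (((D.l n) ^ (k + 1) : ℝ) : ℂ) * ⟪w, ⟪D.Y n, z⟫_ℂ • D.X n⟫_ℂ) =
        fun m => innerSL ℂ w (((D.l m : ℝ) : ℂ) • (⟪D.Y m, (D.A ^ k) z⟫_ℂ • D.X m)) := by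
      funext m
      rw [innerSL_apply_apply, inner_Y_pow]
      simp only [inner_smul_right]
      push_cast
      ring
    rw [h4]
    exact h

/-- the closed span of the `X n` lying in `M` -/
lemma rest_mem (M : Submodule ℂ H) (hM : IsClosed (M : Set H)) (hA : ∀ x ∈ M, D.A x ∈ M)
    (z : H) (hz : z ∈ M) :
    z - ⟪D.e, z⟫_ℂ • D.e ∈
      (Submodule.span ℂ {x : H | x ∈ M ∧ ∃ n, x = D.X n}).topologicalClosure := by
  set L := (Submodule.span ℂ {x : H | x ∈ M ∧ ∃ n, x = D.X n}).topologicalClosure with hL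
  have hLc : IsClosed (L : Set H) := Submodule.isClosed_topologicalClosure _
  have : CompleteSpace L := hLc.completeSpace_coe
  rw [← L.orthogonal_orthogonal, Submodule.mem_orthogonal]
  intro w hw
  have hw' : ∀ u ∈ L, ⟪w, u⟫_ℂ = 0 := fun u hu => Submodule.inner_left_of_mem_orthogonal hu hw
  refine D.her z w (fun n => ?_)
  by_cases h0 : ⟪D.Y n, z⟫_ℂ = 0
  · exact Or.inl h0
  · right
    apply hw'
    apply Submodule.le_topologicalClosure
    apply Submodule.subset_span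
    refine ⟨?_, n, rfl⟩
    have h1 := D.inv_rk M hM hA z hz n
    have h2 := M.smul_mem (⟪D.Y n, z⟫_ℂ)⁻¹ h1
    rwa [smul_smul, inv_mul_cancel₀ h0, one_smul] at h2

lemma rest_mem' (M : Submodule ℂ H) (hM : IsClosed (M : Set H)) (hA : ∀ x ∈ M, D.A x ∈ M)
    (z : H) (hz : z ∈ M) : z - ⟪D.e, z⟫_ℂ • D.e ∈ M := by
  have h := D.rest_mem M hM hA z hz
  have h2 : (Submodule.span ℂ {x : H | x ∈ M ∧ ∃ n, x = D.X n}).topologicalClosure ≤ M :=
    Submodule.topologicalClosure_minimal _ (Submodule.span_le.2 (fun x hx => hx.1)) hM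
  exact h2 h

lemma synthesis (M : Submodule ℂ H) (hM : IsClosed (M : Set H)) (hA : ∀ x ∈ M, D.A x ∈ M) :
    M = (Submodule.span ℂ {x : H | x ∈ M ∧ ∃ c : ℂ, D.A x = c • x}).topologicalClosure := by
  apply le_antisymm
  · intro z hz
    set L := (Submodule.span ℂ {x : H | x ∈ M ∧ ∃ c : ℂ, D.A x = c • x}).topologicalClosure
    have h1 : z - ⟪D.e, z⟫_ℂ • D.e ∈ L := by
      refine Submodule.topologicalClosure_mono (Submodule.span_mono ?_) (D.rest_mem M hM hA z hz)
      rintro x ⟨hx, n, rfl⟩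
      exact ⟨hx, _, D.A_X n⟩
    have h2 : ⟪D.e, z⟫_ℂ • D.e ∈ L := by
      apply Submodule.le_topologicalClosure
      apply Submodule.subset_span
      refine ⟨?_, 0, ?_⟩
      · have := M.sub_mem hz (D.rest_mem' M hM hA z hz)
        simpa using this
      · rw [map_smul, D.A_e]; simp
    have := L.add_mem h1 h2
    simpa using this
  · exact Submodule.topologicalClosure_minimal _ (Submodule.span_le.2 (fun x hx => hx.1)) hM

/-- the projection on `e` leaves all closed invariant subspaces invariant -/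
lemma rk_e_inv (M : Submodule ℂ H) (hM : IsClosed (M : Set H)) (hA : ∀ x ∈ M, D.A x ∈ M)
    (z : H) (hz : z ∈ M) : rk D.e D.e z ∈ M := by
  have := M.sub_mem hz (D.rest_mem' M hM hA z hz)
  simpa using this

/-- The functional `φ(S) = ∑ i, ⟪W i, S (Z i)⟫ - s ⟪e, S e⟫` vanishes on polynomials in `A`. -/
lemma poly_zero {ι : Type} (F : Finset ι) (Z W : ι → H) (s : ℂ)
    (hs : ∑ i ∈ F, ⟪W i, Z i⟫_ℂ = s)
    (h0 : ∀ n, ∑ i ∈ F, ⟪D.Y n, Z i⟫_ℂ * ⟪W i, D.X n⟫_ℂ = 0) (p : Polynomial ℂ) :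
    ∑ i ∈ F, ⟪W i, (Polynomial.aeval D.A p) (Z i)⟫_ℂ
      - s * ⟪D.e, (Polynomial.aeval D.A p) D.e⟫_ℂ = 0 := by
  induction p using Polynomial.induction_on' with
  | add p q hp hq =>
    simp only [map_add, add_apply, inner_add_right, Finset.sum_add_distrib]
    linear_combination hp + hq
  | monomial k a =>
    rw [Polynomial.aeval_monomial]
    simp only [Algebra.algebraMap_eq_smul_one, smul_mul_assoc, one_mul,
      smul_apply, inner_smul_right, ← Finset.mul_sum]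
    rcases k with _ | k
    · simp only [pow_zero, one_apply_eq_self, ContinuousLinearMap.one_apply, hs, D.he]
      ring
    · have h1 : (D.A ^ (k + 1)) D.e = 0 := by
        rw [pow_succ, mul_apply_eq_comp, D.A_e, map_zero]
      have h2 : ∑ i ∈ F, ⟪W i, (D.A ^ (k + 1)) (Z i)⟫_ℂ = 0 := by
        have h3 : HasSum (fun n => ∑ i ∈ F, ⟪W i, ((D.l n : ℝ) : ℂ) •
            (⟪D.Y n, (D.A ^ k) (Z i)⟫_ℂ • D.X n)⟫_ℂ)
            (∑ i ∈ F, ⟪W i, (D.A ^ (k + 1)) (Z i)⟫_ℂ) := by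
          refine hasSum_sum (fun i _ => ?_)
          have h4 := (D.hasSum_A ((D.A ^ k) (Z i))).mapL (innerSL ℂ (W i))
          rw [pow_succ', mul_apply_eq_comp]
          exact h4
        have h5 : (fun n => ∑ i ∈ F, ⟪W i, ((D.l n : ℝ) : ℂ) •
            (⟪D.Y n, (D.A ^ k) (Z i)⟫_ℂ • D.X n)⟫_ℂ) = fun _ => 0 := by
          funext n
          have h6 : ∀ i, ⟪W i, ((D.l n : ℝ) : ℂ) • (⟪D.Y n, (D.A ^ k) (Z i)⟫_ℂ • D.X n)⟫_ℂ
              = (((D.l n : ℝ) : ℂ) * (((D.l n) ^ k : ℝ) : ℂ)) *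
                (⟪D.Y n, Z i⟫_ℂ * ⟪W i, D.X n⟫_ℂ) := by
            intro i
            rw [inner_Y_pow]
            simp only [inner_smul_right]
            ring
          simp_rw [h6, ← Finset.mul_sum, h0 n, mul_zero]
        rw [h5] at h3
        exact (h3.unique hasSum_zero)
      rw [h1, h2]
      simp

end Data
end

end Pool.Agent.J4H87.ES
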