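import Pool.Agent.J4H87.ES.Abs

/-!
# An operator with spectral synthesis which is not reflexive: the concrete system
-/

set_option autoImplicit false
open scoped InnerProductSpace
open Filter Topology

namespace Pool.Agent.J4H87.ES

/-- The scalar form of hereditary completeness. -/
lemma oneDense (z w : ℕ → ℂ) (hz : Tendsto z atTop (𝓝 0)) (hs : Summable (fun n => ‖z n * w n‖))
    (hE0 : (z 0 - z 1) * w 0 = 0)
    (hE : ∀ k : ℕ, (z (2 * k + 2) + 8 ^ (k + 1) * z (2 * k + 1) - 8 ^ (k + 1) * z (2 * k + 3))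
      * w (2 * k + 2) = 0)
    (hO : ∀ k : ℕ, z (2 * k + 1) * (8 ^ k * w (2 * k) + w (2 * k + 1)
      - 8 ^ (k + 1) * w (2 * k + 2)) = 0) :
    ∑' n, z n * w n = 0 := by
  set P : ℕ → ℂ := fun m => ∑ i ∈ Finset.range m, z i * w i with hP
  have hP1 : ∀ m, P (m + 1) = P m + z m * w m := fun m => Finset.sum_range_succ _ _
  have hform : ∀ k : ℕ, P (2 * k + 1) = 8 ^ k * z (2 * k + 1) * w (2 * k) ∧
      P (2 * k + 2) = 8 ^ (k + 1) * z (2 * k + 1) * w (2 * k + 2) := by
    intro k
    induction k with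
    | zero =>
      have h1 : P 1 = z 1 * w 0 := by
        have : P 1 = z 0 * w 0 := by simp [hP]
        rw [this]; linear_combination hE0
      refine ⟨by simpa using h1, ?_⟩
      have h2 := hO 0
      have h3 : P 2 = P 1 + z 1 * w 1 := hP1 1
      simp only [mul_zero, zero_add, pow_zero, one_mul, pow_one] at h2 ⊢
      rw [h3, h1]
      linear_combination h2
    | succ k ih =>
      obtain ⟨-, ih2⟩ := ih
      have h1 : P (2 * (k + 1) + 1) = 8 ^ (k + 1) * z (2 * (k + 1) + 1) * w (2 * (k + 1)) := by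
        have h3 : P (2 * k + 3) = P (2 * k + 2) + z (2 * k + 2) * w (2 * k + 2) := hP1 _
        have h4 := hE k
        have e1 : 2 * (k + 1) + 1 = 2 * k + 3 := by ring
        have e2 : 2 * (k + 1) = 2 * k + 2 := by ring
        rw [e1, e2, h3, ih2]
        linear_combination h4
      refine ⟨h1, ?_⟩
      have h3 : P (2 * (k + 1) + 2) = P (2 * (k + 1) + 1) + z (2 * (k + 1) + 1) * w (2 * (k + 1) + 1)
        := hP1 _
      have h4 := hO (k + 1)
      rw [h3, h1]
      linear_combination h4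
  have hsum : Summable (fun n => z n * w n) := hs.of_norm
  have hlim : Tendsto P atTop (𝓝 (∑' n, z n * w n)) := hsum.hasSum.tendsto_sum_nat
  by_contra hS
  set S := ∑' n, z n * w n with hSdef
  have hr : 0 < ‖S‖ / 2 := by have := norm_pos_iff.2 hS; linarith
  set r := ‖S‖ / 2 with hrdef
  have hev : ∀ᶠ m in atTop, r ≤ ‖P m‖ := by
    have h1 := hlim.norm
    have h2 : r < ‖S‖ := by rw [hrdef]; have := norm_pos_iff.2 hS; linarith
    exact (h1.eventually (lt_mem_nhds h2)).mono (fun m hm => hm.le)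
  obtain ⟨N, hN⟩ := eventually_atTop.1 hev
  set t : ℕ → ℝ := fun k => ‖z (2 * k + 2) * w (2 * k + 2)‖ / r with ht
  have hts : Summable t := by
    have h1 : Summable (fun k : ℕ => ‖z (2 * k + 2) * w (2 * k + 2)‖) :=
      hs.comp_injective (i := fun k : ℕ => 2 * k + 2) (fun a b h => by
        simp only at h; omega)
    exact h1.div_const r
  have htn : ∀ k, 0 ≤ t k := fun k => div_nonneg (norm_nonneg _) hr.le
  obtain ⟨K0, hK0⟩ := eventually_atTop.1
    ((tendsto_sum_nat_add t).eventually (gt_mem_nhds (show (0 : ℝ) < 1 / 2 by norm_num)))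
  set K := max K0 N with hK
  have hKs : ∑' k, t (k + K) < 1 / 2 := hK0 K (le_max_left _ _)
  have hstep : ∀ k, N ≤ k → ‖z (2 * k + 1)‖ * (1 - t k) ≤ ‖z (2 * k + 3)‖ := by
    intro k hk
    have h1 : r ≤ ‖P (2 * k + 2)‖ := hN _ (by omega)
    have h2 : z (2 * k + 3) * P (2 * k + 2) = z (2 * k + 1) * P (2 * k + 3) := by
      have h3 := (hform k).2
      have h4 := (hform (k + 1)).1
      have e1 : 2 * (k + 1) + 1 = 2 * k + 3 := by ring
      have e2 : 2 * (k + 1) = 2 * k + 2 := by ring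
      rw [e1, e2] at h4
      rw [h3, h4]; ring
    have h5 : P (2 * k + 3) = P (2 * k + 2) + z (2 * k + 2) * w (2 * k + 2) := hP1 _
    have h6 : ‖z (2 * k + 3)‖ * ‖P (2 * k + 2)‖ = ‖z (2 * k + 1)‖ * ‖P (2 * k + 3)‖ := by
      rw [← norm_mul, ← norm_mul, h2]
    have h7 : ‖P (2 * k + 2)‖ - ‖z (2 * k + 2) * w (2 * k + 2)‖ ≤ ‖P (2 * k + 3)‖ := by
      rw [h5]
      have := norm_sub_norm_le (P (2 * k + 2)) (-(z (2 * k + 2) * w (2 * k + 2)))
      rwa [norm_neg, sub_neg_eq_add] at this
    have h8 : ‖z (2 * k + 2) * w (2 * k + 2)‖ = t k * r := by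
      rw [ht]; field_simp
    have hpos : 0 < ‖P (2 * k + 2)‖ := lt_of_lt_of_le hr h1
    have h9 : ‖P (2 * k + 2)‖ * (1 - t k) ≤ ‖P (2 * k + 3)‖ := by
      have := mul_le_mul_of_nonneg_left h1 (htn k)
      nlinarith
    have h10 : ‖z (2 * k + 1)‖ * (‖P (2 * k + 2)‖ * (1 - t k)) ≤
        ‖z (2 * k + 3)‖ * ‖P (2 * k + 2)‖ := by
      rw [h6]; exact mul_le_mul_of_nonneg_left h9 (norm_nonneg _)
    have h11 : ‖P (2 * k + 2)‖ * (‖z (2 * k + 1)‖ * (1 - t k)) ≤
        ‖P (2 * k + 2)‖ * ‖z (2 * k + 3)‖ := by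
      calc _ = ‖z (2 * k + 1)‖ * (‖P (2 * k + 2)‖ * (1 - t k)) := by ring
        _ ≤ _ := h10
        _ = _ := by ring
    exact le_of_mul_le_mul_left h11 hpos
  have hz0 : 0 < ‖z (2 * K + 1)‖ := by
    rw [norm_pos_iff]
    intro h0
    have h1 : r ≤ ‖P (2 * K + 1)‖ := hN _ (by have := le_max_right K0 N; omega)
    rw [(hform K).1, h0] at h1
    simp at h1
    linarith
  have hind : ∀ j : ℕ, ‖z (2 * K + 1)‖ * (1 - ∑ i ∈ Finset.range j, t (i + K)) ≤
      ‖z (2 * (j + K) + 1)‖ := by
    intro j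
    induction j with
    | zero => simp
    | succ j ih =>
      have h1 := hstep (j + K) (by have := le_max_right K0 N; omega)
      have e1 : 2 * (j + K) + 3 = 2 * (j + 1 + K) + 1 := by ring
      rw [e1] at h1
      refine le_trans ?_ h1
      rw [Finset.sum_range_succ]
      have h2 : ∑ i ∈ Finset.range j, t (i + K) ≤ ∑' i, t (i + K) :=
        ((summable_nat_add_iff K).2 hts).sum_le_tsum _ (fun i _ => htn _)
      have h2' : t (j + K) ≤ ∑' i, t (i + K) :=
        ((summable_nat_add_iff K).2 hts).le_tsum j (fun i _ => htn _)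
      have h3 : 0 ≤ 1 - t (j + K) := by linarith
      have h4 := mul_le_mul_of_nonneg_right ih h3
      have h5 : 0 ≤ ∑ i ∈ Finset.range j, t (i + K) := Finset.sum_nonneg (fun i _ => htn _)
      have h6 := htn (j + K)
      refine le_trans ?_ h4
      rw [mul_assoc]
      refine mul_le_mul_of_nonneg_left ?_ hz0.le
      nlinarith [mul_nonneg h5 h6]
  have hbig : ∀ j : ℕ, ‖z (2 * K + 1)‖ / 2 ≤ ‖z (2 * (j + K) + 1)‖ := by
    intro j
    refine le_trans ?_ (hind j)
    have h2 : ∑ i ∈ Finset.range j, t (i + K) ≤ ∑' i, t (i + K) :=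
      ((summable_nat_add_iff K).2 hts).sum_le_tsum _ (fun i _ => htn _)
    nlinarith
  have hz2 : Tendsto (fun j : ℕ => ‖z (2 * (j + K) + 1)‖) atTop (𝓝 0) := by
    have h1 : Tendsto (fun j : ℕ => 2 * (j + K) + 1) atTop atTop :=
      tendsto_atTop_mono (fun j => by simp only [id]; omega) tendsto_id
    have := (hz.comp h1).norm
    simpa using this
  have := ge_of_tendsto' hz2 hbig
  linarith

/-- the Hilbert space -/
noncomputable abbrev H := lp (fun _ : ℕ => ℂ) 2

/-- the unit vectors -/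
noncomputable def E (n : ℕ) : H := lp.single 2 n (1 : ℂ)

lemma E_apply (n m : ℕ) : (E n) m = if m = n then 1 else 0 := by
  rw [E, lp.single_apply, Pi.single_apply]

lemma inner_E_left (n : ℕ) (z : H) : ⟪E n, z⟫_ℂ = z n := by
  rw [E, lp.inner_single_left]; simp

lemma inner_E_right (n : ℕ) (z : H) : ⟪z, E n⟫_ℂ = (starRingEnd ℂ) (z n) := by
  rw [E, lp.inner_single_right]; simp

/-- `8 ^ k` for `k ≥ 1`, `0` for `k = 0` -/
noncomputable def c (k : ℕ) : ℂ := if k = 0 then 0 else 8 ^ k

noncomputable def xe (k : ℕ) : H := E (2 * k + 1)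
noncomputable def xo (k : ℕ) : H :=
  (8 : ℂ) ^ k • E (2 * k + 1) + E (2 * k + 2) - (8 : ℂ) ^ (k + 1) • E (2 * k + 3)
noncomputable def ye (k : ℕ) : H :=
  E (2 * k + 1) + c k • E (2 * k) - (8 : ℂ) ^ k • E (2 * k + 2)
noncomputable def yo (k : ℕ) : H := E (2 * k + 2)

lemma conj_c (k : ℕ) : (starRingEnd ℂ) (c k) = c k := by
  unfold c; split_ifs <;> simp [map_ofNat]

lemma inner_ye (k : ℕ) (z : H) :
    ⟪ye k, z⟫_ℂ = z (2 * k + 1) + c k * z (2 * k) - 8 ^ k * z (2 * k + 2) := by
  simp only [ye, inner_sub_left, inner_add_left, inner_smul_left, inner_E_left, conj_c, map_pow,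
    map_ofNat]

lemma inner_yo (k : ℕ) (z : H) : ⟪yo k, z⟫_ℂ = z (2 * k + 2) := by
  simp only [yo, inner_E_left]

lemma inner_xe (k : ℕ) (w : H) : ⟪w, xe k⟫_ℂ = (starRingEnd ℂ) (w (2 * k + 1)) := by
  simp only [xe, inner_E_right]

lemma inner_xo (k : ℕ) (w : H) : ⟪w, xo k⟫_ℂ = 8 ^ k * (starRingEnd ℂ) (w (2 * k + 1))
    + (starRingEnd ℂ) (w (2 * k + 2)) - 8 ^ (k + 1) * (starRingEnd ℂ) (w (2 * k + 3)) := by
  simp only [xo, inner_sub_right, inner_add_right, inner_smul_right, inner_E_right]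

lemma xe_apply (k m : ℕ) : (xe k) m = if m = 2 * k + 1 then 1 else 0 := by
  rw [xe, E_apply]

lemma xo_apply (k m : ℕ) : (xo k) m = 8 ^ k * (if m = 2 * k + 1 then 1 else 0)
    + (if m = 2 * k + 2 then 1 else 0) - 8 ^ (k + 1) * (if m = 2 * k + 3 then 1 else 0) := by
  simp only [xo, lp.coeFn_sub, lp.coeFn_add, lp.coeFn_smul, Pi.sub_apply, Pi.add_apply,
    Pi.smul_apply, E_apply, smul_eq_mul]

/-- the system -/
noncomputable def X (n : ℕ) : H := if n % 2 = 0 then xe (n / 2) else xo (n / 2)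
noncomputable def Y (n : ℕ) : H := if n % 2 = 0 then ye (n / 2) else yo (n / 2)

lemma X_even (k : ℕ) : X (2 * k) = xe k := by
  unfold X; rw [if_pos (by omega)]; congr 1; omega
lemma X_odd (k : ℕ) : X (2 * k + 1) = xo k := by
  unfold X; rw [if_neg (by omega)]; congr 1; omega
lemma Y_even (k : ℕ) : Y (2 * k) = ye k := by
  unfold Y; rw [if_pos (by omega)]; congr 1; omega
lemma Y_odd (k : ℕ) : Y (2 * k + 1) = yo k := by
  unfold Y; rw [if_neg (by omega)]; congr 1; omega

lemma biorth (m n : ℕ) : ⟪Y m, X n⟫_ℂ = if m = n then 1 else 0 := by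
  obtain ⟨j, rfl | rfl⟩ := Nat.even_or_odd' m <;> obtain ⟨k, rfl | rfl⟩ := Nat.even_or_odd' n
  · rw [Y_even, X_even, inner_ye, xe_apply, xe_apply, xe_apply]
    have h1 : (2 * j = 2 * k + 1) = False := by simp; omega
    have h2 : (2 * j + 2 = 2 * k + 1) = False := by simp; omega
    have h3 : (2 * j + 1 = 2 * k + 1) = (2 * j = 2 * k) := by simp
    simp only [h1, h2, h3, if_false, mul_zero, add_zero, sub_zero]
  · rw [Y_even, X_odd, inner_ye, xo_apply, xo_apply, xo_apply]
    rcases eq_or_ne j k with rfl | hjk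
    · have e1 : (2 * j = 2 * j + 1) = False := by simp
      have e2 : (2 * j = 2 * j + 2) = False := by simp
      have e3 : (2 * j = 2 * j + 3) = False := by simp
      have e4 : (2 * j + 1 = 2 * j + 2) = False := by simp
      have e5 : (2 * j + 1 = 2 * j + 3) = False := by simp
      have e6 : (2 * j + 2 = 2 * j + 1) = False := by simp
      have e7 : (2 * j + 2 = 2 * j + 3) = False := by simp
      simp only [e1, e2, e3, e4, e5, e6, e7, if_false, if_true]
      ring
    · rcases eq_or_ne j (k + 1) with rfl | hjk1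
      · have e1 : (2 * (k + 1) = 2 * k + 1) = False := by simp; omega
        have e2 : (2 * (k + 1) = 2 * k + 2) = True := by simp; omega
        have e3 : (2 * (k + 1) = 2 * k + 3) = False := by simp; omega
        have e4 : (2 * (k + 1) + 1 = 2 * k + 1) = False := by simp
        have e5 : (2 * (k + 1) + 1 = 2 * k + 2) = False := by simp; omega
        have e6 : (2 * (k + 1) + 1 = 2 * k + 3) = True := by simp; omega
        have e7 : (2 * (k + 1) + 2 = 2 * k + 1) = False := by simp; omega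
        have e8 : (2 * (k + 1) + 2 = 2 * k + 2) = False := by simp
        have e9 : (2 * (k + 1) + 2 = 2 * k + 3) = False := by simp; omega
        simp only [e1, e2, e3, e4, e5, e6, e7, e8, e9, if_false, if_true, c]
        rw [if_neg (by omega)]
        ring
      · have e1 : (2 * j = 2 * k + 1) = False := by simp; omega
        have e2 : (2 * j = 2 * k + 2) = False := by simp; omega
        have e3 : (2 * j = 2 * k + 3) = False := by simp; omega
        have e4 : (2 * j + 1 = 2 * k + 1) = False := by simp; omega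
        have e5 : (2 * j + 1 = 2 * k + 2) = False := by simp; omega
        have e6 : (2 * j + 1 = 2 * k + 3) = False := by simp; omega
        have e7 : (2 * j + 2 = 2 * k + 1) = False := by simp; omega
        have e8 : (2 * j + 2 = 2 * k + 2) = False := by simp; omega
        have e9 : (2 * j + 2 = 2 * k + 3) = False := by simp; omega
        simp only [e1, e2, e3, e4, e5, e6, e7, e8, e9, if_false]
        ring
  · rw [Y_odd, X_even, inner_yo, xe_apply]
    rw [if_neg (by omega), if_neg (by omega)]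
  · rw [Y_odd, X_odd, inner_yo, xo_apply]
    rw [if_neg (show ¬ (2 * j + 2 = 2 * k + 1) by omega),
      if_neg (show ¬ (2 * j + 2 = 2 * k + 3) by omega)]
    have h3 : (2 * j + 2 = 2 * k + 2) = (2 * j + 1 = 2 * k + 1) := by simp
    simp only [h3]
    ring

end Pool.Agent.J4H87.ES
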