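import Pool.Agent.J4H87.ES.Conc

/-!
# An operator with spectral synthesis which is not reflexive
-/

set_option autoImplicit false
open scoped InnerProductSpace
open Filter Topology

namespace Pool.Agent.J4H87.ES

/-! ### weights -/

noncomputable def wt (n : ℕ) : ℝ := ∏ j ∈ Finset.range (n + 1), (1 / (2 + ‖Y j‖ * ‖X j‖))

lemma fac_pos (j : ℕ) : 0 < 1 / (2 + ‖Y j‖ * ‖X j‖) := by positivity

lemma fac_le (j : ℕ) : 1 / (2 + ‖Y j‖ * ‖X j‖) ≤ 1 / 2 := by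
  apply one_div_le_one_div_of_le (by norm_num)
  have : 0 ≤ ‖Y j‖ * ‖X j‖ := by positivity
  linarith

lemma wt_pos (n : ℕ) : 0 < wt n := Finset.prod_pos (fun j _ => fac_pos j)

lemma wt_anti : StrictAnti wt := by
  refine strictAnti_nat_of_succ_lt (fun n => ?_)
  have h1 : wt (n + 1) = wt n * (1 / (2 + ‖Y (n + 1)‖ * ‖X (n + 1)‖)) :=
    Finset.prod_range_succ _ _
  rw [h1]
  have h2 := fac_le (n + 1)
  have h3 := wt_pos n
  nlinarith

lemma wt_sum : Summable (fun n => wt n * (‖Y n‖ * ‖X n‖)) := by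
  refine Summable.of_nonneg_of_le (fun n => mul_nonneg (wt_pos n).le (by positivity))
    (fun n => ?_) (summable_geometric_of_lt_one (r := 1 / 2) (by norm_num) (by norm_num))
  have h1 : wt n = (∏ j ∈ Finset.range n, (1 / (2 + ‖Y j‖ * ‖X j‖))) *
      (1 / (2 + ‖Y n‖ * ‖X n‖)) := Finset.prod_range_succ _ _
  have h2 : ∏ j ∈ Finset.range n, (1 / (2 + ‖Y j‖ * ‖X j‖)) ≤ (1 / 2) ^ n := by
    have := Finset.prod_le_prod (s := Finset.range n) (f := fun j => 1 / (2 + ‖Y j‖ * ‖X j‖))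
      (g := fun _ => (1 / 2 : ℝ)) (fun j _ => (fac_pos j).le) (fun j _ => fac_le j)
    simpa using this
  have h3 : 0 ≤ ∏ j ∈ Finset.range n, (1 / (2 + ‖Y j‖ * ‖X j‖)) :=
    Finset.prod_nonneg (fun j _ => (fac_pos j).le)
  have h4 : 1 / (2 + ‖Y n‖ * ‖X n‖) * (‖Y n‖ * ‖X n‖) ≤ 1 := by
    have : 0 ≤ ‖Y n‖ * ‖X n‖ := by positivity
    rw [div_mul_eq_mul_div, one_mul, div_le_one (by positivity)]
    linarith
  have h5 : 0 ≤ 1 / (2 + ‖Y n‖ * ‖X n‖) * (‖Y n‖ * ‖X n‖) :=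
    mul_nonneg (fac_pos n).le (by positivity)
  rw [h1, mul_assoc]
  calc _ ≤ (1 / 2 : ℝ) ^ n * (1 / (2 + ‖Y n‖ * ‖X n‖) * (‖Y n‖ * ‖X n‖)) :=
        mul_le_mul_of_nonneg_right h2 h5
    _ ≤ (1 / 2) ^ n * 1 := mul_le_mul_of_nonneg_left h4 (by positivity)
    _ = _ := mul_one _

/-! ### hereditary completeness -/

lemma her (z w : H) (h : ∀ n, ⟪Y n, z⟫_ℂ = 0 ∨ ⟪w, X n⟫_ℂ = 0) :
    ⟪w, z - ⟪E 0, z⟫_ℂ • E 0⟫_ℂ = 0 := by
  have hsum := lp.hasSum_inner (𝕜 := ℂ) w (z - ⟪E 0, z⟫_ℂ • E 0)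
  have hterm : ∀ n, ⟪w n, (z - ⟪E 0, z⟫_ℂ • E 0 : H) n⟫_ℂ =
      if n = 0 then 0 else z n * (starRingEnd ℂ) (w n) := by
    intro n
    have h1 : (z - ⟪E 0, z⟫_ℂ • E 0 : H) n = z n - z 0 * (if n = 0 then 1 else 0) := by
      simp only [lp.coeFn_sub, lp.coeFn_smul, Pi.sub_apply, Pi.smul_apply, E_apply, smul_eq_mul,
        inner_E_left]
    rw [h1]
    split_ifs with h0
    · subst h0; simp
    · simp [RCLike.inner_apply]
  simp_rw [hterm] at hsum
  generalize ⟪w, z - ⟪E 0, z⟫_ℂ • E 0⟫_ℂ = S at hsum ⊢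
  have hshift : HasSum (fun n : ℕ => z (n + 1) * (starRingEnd ℂ) (w (n + 1))) S := by
    have h2 := (hasSum_nat_add_iff' (f := fun n => if n = 0 then 0 else
      z n * (starRingEnd ℂ) (w n)) 1).2 hsum
    simpa using h2
  rw [← hshift.tsum_eq]
  have hz0 : Tendsto (fun n => z n) atTop (𝓝 0) := by
    have h1 : Summable (fun n => ‖z n‖ ^ (2 : ℝ)) := by
      have := lp.memℓp z
      simpa using this.summable (by norm_num)
    have h2 := h1.tendsto_atTop_zero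
    rw [tendsto_zero_iff_norm_tendsto_zero]
    have h3 : Tendsto (fun n => (‖z n‖ ^ (2 : ℝ)) ^ (1 / 2 : ℝ)) atTop (𝓝 (0 ^ (1 / 2 : ℝ))) :=
      h2.rpow_const (Or.inr (by norm_num))
    rw [Real.zero_rpow (by norm_num)] at h3
    refine h3.congr (fun n => ?_)
    rw [← Real.rpow_mul (norm_nonneg _)]
    norm_num
  refine oneDense (fun n => z (n + 1)) (fun n => (starRingEnd ℂ) (w (n + 1)))
    (hz0.comp (tendsto_add_atTop_nat 1)) ?_ ?_ ?_ ?_
  · have h1 : Summable (fun n => ‖z n‖ * ‖w n‖) :=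
      lp.summable_mul (by rw [Real.holderConjugate_iff]; norm_num) z w
    have h2 := (summable_nat_add_iff 1).2 h1
    refine h2.congr (fun n => ?_)
    rw [norm_mul, RCLike.norm_conj]
  · have h1 := h (2 * 0)
    rw [Y_even, X_even, inner_ye, inner_xe] at h1
    have h2 : c 0 = 0 := by simp [c]
    rw [h2] at h1
    simp only [mul_zero, zero_add, zero_mul, add_zero, pow_zero, one_mul] at h1
    rcases h1 with h1 | h1
    · rw [h1, zero_mul]
    · rw [h1, mul_zero]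
  · intro k
    have h1 := h (2 * (k + 1))
    rw [Y_even, X_even, inner_ye, inner_xe] at h1
    have h2 : c (k + 1) = 8 ^ (k + 1) := by simp [c]
    rw [h2] at h1
    have e1 : 2 * (k + 1) + 1 = 2 * k + 2 + 1 := by ring
    have e2 : 2 * (k + 1) = 2 * k + 1 + 1 := by ring
    have e3 : 2 * (k + 1) + 2 = 2 * k + 3 + 1 := by ring
    rw [e1, e3, e2] at h1
    rcases h1 with h1 | h1
    · rw [h1, zero_mul]
    · rw [h1, mul_zero]
  · intro k
    have h1 := h (2 * k + 1)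
    rw [Y_odd, X_odd, inner_yo, inner_xo] at h1
    rcases h1 with h1 | h1
    · rw [h1, zero_mul]
    · simp only [add_assoc, Nat.reduceAdd] at h1 ⊢
      rw [h1, mul_zero]

/-- the data -/
noncomputable def D : Data H where
  e := E 0
  X := X
  Y := Y
  l := wt
  he := by rw [inner_E_left, E_apply]; simp
  heX := by
    intro n
    rw [inner_E_left]
    obtain ⟨k, rfl | rfl⟩ := Nat.even_or_odd' n
    · rw [X_even, xe_apply, if_neg (by omega)]
    · rw [X_odd, xo_apply, if_neg (by omega), if_neg (by omega), if_neg (by omega)]; ring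
  heY := by
    intro n
    obtain ⟨k, rfl | rfl⟩ := Nat.even_or_odd' n
    · rw [Y_even, inner_ye, E_apply, E_apply, E_apply, if_neg (by omega),
        if_neg (show ¬ (2 * k + 2 = 0) by omega)]
      rcases k with _ | k
      · simp [c]
      · rw [if_neg (by omega)]; ring
    · rw [Y_odd, inner_yo, E_apply, if_neg (by omega)]
  bi := biorth
  her := her
  lpos := wt_pos
  lanti := wt_anti
  lsum := wt_sum

/-! ### the rank two functional -/

/-- the coordinates of the `Z` vectors -/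
noncomputable def zf (r : ℝ) (n : ℕ) : ℂ :=
  if n = 1 then 1 else if n % 2 = 1 ∨ n = 0 then 0 else ((r : ℂ)) ^ ((n - 2) / 2)

/-- the coordinates of the `W` vectors -/
noncomputable def wf (a r : ℝ) (n : ℕ) : ℂ :=
  if n % 2 = 1 then (a : ℂ) * (r : ℂ) ^ ((n - 1) / 2) else 0

lemma zf_one (r : ℝ) : zf r 1 = 1 := by simp [zf]
lemma zf_zero (r : ℝ) : zf r 0 = 0 := by simp [zf]
lemma zf_even (r : ℝ) (k : ℕ) : zf r (2 * k + 2) = (r : ℂ) ^ k := by
  unfold zf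
  rw [if_neg (by omega), if_neg (by omega)]
  congr 1; omega
lemma zf_odd (r : ℝ) (k : ℕ) : zf r (2 * k + 3) = 0 := by
  unfold zf
  rw [if_neg (by omega), if_pos (by omega)]
lemma wf_odd (a r : ℝ) (k : ℕ) : wf a r (2 * k + 1) = a * (r : ℂ) ^ k := by
  unfold wf
  rw [if_pos (by omega)]
  congr 2; omega
lemma wf_even (a r : ℝ) (k : ℕ) : wf a r (2 * k) = 0 := by
  unfold wf
  rw [if_neg (by omega)]

lemma mem_of (f : ℕ → ℂ) (C : ℝ) (h : ∀ n, ‖f n‖ ^ 2 ≤ C * (1 / 2) ^ n) : Memℓp f 2 := by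
  apply memℓp_gen
  refine Summable.of_nonneg_of_le (fun n => by positivity) (fun n => ?_)
    ((summable_geometric_of_lt_one (r := 1 / 2) (by norm_num) (by norm_num)).mul_left C)
  have := h n
  simpa using this

lemma zf_mem (r : ℝ) (h0 : 0 ≤ r) (h1 : r ≤ 1 / 2) : Memℓp (zf r) 2 := by
  refine mem_of _ 4 (fun n => ?_)
  rcases Nat.lt_or_ge n 2 with hn | hn
  · interval_cases n
    · rw [zf_zero]; simp
    · rw [zf_one]; norm_num
  · obtain ⟨k, hk | hk⟩ := Nat.even_or_odd' n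
    · obtain ⟨j, rfl⟩ : ∃ j, k = j + 1 := ⟨k - 1, by omega⟩
      have e : n = 2 * j + 2 := by omega
      rw [e, zf_even, norm_pow, Complex.norm_real, Real.norm_eq_abs, abs_of_nonneg h0]
      calc (r ^ j) ^ 2 ≤ ((1 / 2) ^ j) ^ 2 := by gcongr
        _ = 4 * (1 / 2) ^ (2 * j + 2) := by ring
    · obtain ⟨j, rfl⟩ : ∃ j, k = j + 1 := ⟨k - 1, by omega⟩
      have e : n = 2 * j + 3 := by omega
      rw [e, zf_odd]; simp

lemma wf_mem (a r : ℝ) (h0 : 0 ≤ r) (h1 : r ≤ 1 / 2) : Memℓp (wf a r) 2 := by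
  refine mem_of _ (2 * a ^ 2) (fun n => ?_)
  obtain ⟨k, rfl | rfl⟩ := Nat.even_or_odd' n
  · rw [wf_even]; simp; positivity
  · rw [wf_odd, norm_mul, norm_pow, Complex.norm_real, Complex.norm_real, Real.norm_eq_abs,
      Real.norm_eq_abs, abs_of_nonneg h0, mul_pow, sq_abs]
    calc a ^ 2 * (r ^ k) ^ 2 ≤ a ^ 2 * ((1 / 2) ^ k) ^ 2 := by gcongr
      _ = 2 * a ^ 2 * (1 / 2) ^ (2 * k + 1) := by ring

noncomputable def Z : Fin 2 → H := ![⟨zf (1 / 2), zf_mem _ (by norm_num) (by norm_num)⟩,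
  ⟨zf (1 / 4), zf_mem _ (by norm_num) (by norm_num)⟩]
noncomputable def W : Fin 2 → H := ![⟨wf 3 (1 / 4), wf_mem _ _ (by norm_num) (by norm_num)⟩,
  ⟨wf (-1) (1 / 2), wf_mem _ _ (by norm_num) (by norm_num)⟩]

lemma Z0 (n : ℕ) : (Z 0) n = zf (1 / 2) n := rfl
lemma Z1 (n : ℕ) : (Z 1) n = zf (1 / 4) n := rfl
lemma W0 (n : ℕ) : (W 0) n = wf 3 (1 / 4) n := rfl
lemma W1 (n : ℕ) : (W 1) n = wf (-1) (1 / 2) n := rfl

lemma conj_wf (a r : ℝ) (n : ℕ) : (starRingEnd ℂ) (wf a r n) = wf a r n := by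
  unfold wf; split_ifs <;> simp [Complex.conj_ofReal]

lemma inner_wz (z w : H) (r a q : ℝ) (hz : ∀ n, z n = zf r n) (hw : ∀ n, w n = wf a q n) :
    ⟪w, z⟫_ℂ = a := by
  have h := lp.hasSum_inner (𝕜 := ℂ) w z
  have h2 : HasSum (fun n => ⟪w n, z n⟫_ℂ) (⟪w 1, z 1⟫_ℂ) := by
    refine hasSum_single 1 (fun n hn => ?_)
    rw [hz, hw]
    obtain ⟨k, rfl | rfl⟩ := Nat.even_or_odd' n
    · rw [wf_even]; simp
    · obtain ⟨j, rfl⟩ : ∃ j, k = j + 1 := ⟨k - 1, by omega⟩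
      have e : 2 * (j + 1) + 1 = 2 * j + 3 := by ring
      rw [e, zf_odd]; simp
  rw [h.unique h2, hz, hw, zf_one]
  have : wf a q 1 = a := by have := wf_odd a q 0; simpa using this
  rw [this]
  simp [RCLike.inner_apply, Complex.conj_ofReal]

lemma trace_eq : ∑ i : Fin 2, ⟪W i, Z i⟫_ℂ = 2 := by
  rw [Fin.sum_univ_two, inner_wz (Z 0) (W 0) (1 / 2) 3 (1 / 4) Z0 W0,
    inner_wz (Z 1) (W 1) (1 / 4) (-1) (1 / 2) Z1 W1]
  push_cast; norm_num

lemma fun_zero (n : ℕ) : ∑ i : Fin 2, ⟪Y n, Z i⟫_ℂ * ⟪W i, X n⟫_ℂ = 0 := by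
  rw [Fin.sum_univ_two]
  obtain ⟨k, rfl | rfl⟩ := Nat.even_or_odd' n
  · rw [Y_even, X_even, inner_ye, inner_ye, inner_xe, inner_xe]
    simp only [Z0, Z1, W0, W1, conj_wf]
    simp only [wf_odd, zf_even]
    rcases k with _ | k
    · have : c 0 = 0 := by simp [c]
      simp only [this, mul_zero, zero_add, zf_one, pow_zero]
      push_cast; ring
    · have e1 : 2 * (k + 1) + 1 = 2 * k + 3 := by ring
      have e2 : 2 * (k + 1) = 2 * k + 2 := by ring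
      have h2 : c (k + 1) = 8 ^ (k + 1) := by simp [c]
      rw [h2, e1, e2, zf_even, zf_even, zf_odd, zf_odd]
      push_cast
      have h3 : (1 / 2 : ℂ) ^ (k + 1) * (1 / 2 : ℂ) ^ (k + 1) = (1 / 4 : ℂ) ^ (k + 1) := by
        rw [← mul_pow]; norm_num
      simp only [pow_succ]
      ring
  · rw [Y_odd, X_odd, inner_yo, inner_yo, inner_xo, inner_xo]
    simp only [Z0, Z1, W0, W1, conj_wf]
    simp only [wf_odd, zf_even]
    have e2 : 2 * k + 2 = 2 * (k + 1) := by ring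
    have e3 : 2 * k + 3 = 2 * (k + 1) + 1 := by ring
    rw [e2, e3, wf_even, wf_even, wf_odd, wf_odd]
    push_cast
    simp only [pow_succ]
    ring

lemma eZ (i : Fin 2) : ⟪D.e, Z i⟫_ℂ = 0 := by
  show ⟪E 0, Z i⟫_ℂ = 0
  rw [inner_E_left]
  fin_cases i
  · exact zf_zero (1 / 2)
  · exact zf_zero (1 / 4)

theorem main :
    ¬ (∀ (H : Type) [NormedAddCommGroup H] [InnerProductSpace ℂ H] [CompleteSpace H]
      (A : H →L[ℂ] H),
      (∀ M : Submodule ℂ H, IsClosed (M : Set H) → (∀ x ∈ M, A x ∈ M) →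
        M = (Submodule.span ℂ {x : H | x ∈ M ∧ ∃ c : ℂ, A x = c • x}).topologicalClosure) →
      ∀ B : H →L[ℂ] H,
        (∀ M : Submodule ℂ H, IsClosed (M : Set H) → (∀ x ∈ M, A x ∈ M) →
          ∀ x ∈ M, B x ∈ M) →
        ∀ (s : Finset (H × H)) (ε : ℝ), 0 < ε →
          ∃ p : Polynomial ℂ, ∀ z ∈ s,
            ‖⟪(B - Polynomial.aeval A p) z.1, z.2⟫_ℂ‖ < ε) := by
  classical
  intro hall
  obtain ⟨p, hp⟩ := hall H D.A D.synthesis (rk D.e D.e) D.rk_e_inv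
    {(Z 0, W 0), (Z 1, W 1), (D.e, D.e)} (1 / 4) (by norm_num)
  have h1 := hp (Z 0, W 0) (by simp)
  have h2 := hp (Z 1, W 1) (by simp)
  have h3 := hp (D.e, D.e) (by simp)
  simp only at h1 h2 h3
  rw [norm_inner_symm, sub_apply, inner_sub_right, rk_apply, eZ, zero_smul, inner_zero_right,
    zero_sub, norm_neg] at h1 h2
  rw [norm_inner_symm, sub_apply, inner_sub_right, rk_apply, D.he, one_smul, D.he] at h3
  have h4 := D.poly_zero Finset.univ Z W 2 trace_eq fun_zero p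
  rw [Fin.sum_univ_two] at h4
  set u := ⟪W 0, (Polynomial.aeval D.A p) (Z 0)⟫_ℂ
  set v := ⟪W 1, (Polynomial.aeval D.A p) (Z 1)⟫_ℂ
  set t := ⟪D.e, (Polynomial.aeval D.A p) D.e⟫_ℂ
  have h5 : (2 : ℂ) = 2 * (1 - t) + (u + v) := by linear_combination (-1 : ℂ) * h4
  have h6 : ‖(2 : ℂ)‖ ≤ 2 * ‖1 - t‖ + (‖u‖ + ‖v‖) := by
    rw [h5]
    refine (norm_add_le _ _).trans ?_
    rw [norm_mul]
    have := norm_add_le u v
    have h7 : ‖(2 : ℂ)‖ = 2 := by simp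
    rw [h7]
    linarith
  have h7 : ‖(2 : ℂ)‖ = 2 := by simp
  rw [h7] at h6
  linarith

end Pool.Agent.J4H87.ES
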